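import Pool.Agent.N145.SX.MFin
import Pool.Agent.N145.PC.Str4

/-!
Images of products of several varieties (without a curve) whose canonical forms separate points are of
general type, with the successive degrees.
-/

set_option autoImplicit false
set_option linter.overlappingInstances false
set_option linter.unusedSectionVars false
set_option linter.unusedVariables false
set_option maxHeartbeats 4000000
set_option synthInstance.maxHeartbeats 400000

open Polynomial FF IntermediateField Module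

namespace Pool.Agent.L0h18.ST

open Pool.Agent.N145.SX Pool.Agent.N145.PC Pool.Agent.W619.PQ
open Pool.Agent.W602.GT (Divisorial RegAt IsPluri DerReg DerLog LogAt KodGe LogSec Psef)
open Pool.Agent.Y184.NT (trForm trForm_pluri trForm_reg)
open Pool.Agent.R882.LT (SecAt)

open scoped Classical

/-- canonical forms and isomorphisms of function fields -/
theorem hx_equiv {A B : Type} [Field A] [Field B] [Algebra ℂ A] [Algebra ℂ B]
    [Algebra.EssFiniteType ℂ A] (e : A ≃ₐ[ℂ] B) {m : ℕ} (hA : Algebra.trdeg ℂ A = m)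
    {x : Fin m → A} (hx : IsTranscendenceBasis ℂ x) {f : A} (hf : f ∈ HX x (fun _ => False)) :
    e f ∈ HX (fun i => e (x i)) (fun _ => False) := by
  letI iA : Algebra A B := (e : A →+* B).toAlgebra
  haveI : IsScalarTower ℂ A B := IsScalarTower.of_algebraMap_eq fun z => (e.commutes z).symm
  have hB : Algebra.trdeg ℂ B = m := by rw [← e.trdeg_eq]; exact hA
  intro Q hQ
  refine ⟨fun D hD => ?_, fun _ D hD => ?_⟩
  · exact Pool.Agent.N123.SX.PULL A B m m hA hB x hx (fun _ => False) f hf Q hQ D (Or.inl hD)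
  · exact Pool.Agent.N123.SX.PULL A B m m hA hB x hx (fun _ => False) f hf Q hQ D
      (Or.inr ⟨by rintro ⟨_, _, h, _⟩; exact h, hD⟩)

/-- the separation of points and isomorphisms of function fields -/
theorem sepX_equiv {A B : Type} [Field A] [Field B] [Algebra ℂ A] [Algebra ℂ B]
    [Algebra.EssFiniteType ℂ A] (e : A ≃ₐ[ℂ] B) {m : ℕ} (hA : Algebra.trdeg ℂ A = m)
    {x : Fin m → A} (hx : IsTranscendenceBasis ℂ x) {g : ℕ} (h : SepX x (fun _ => False) g) :
    SepX (fun i => e (x i)) (fun _ => False) g := by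
  intro Ω _ _ _ S hS c hc
  have hinj : Function.Injective (fun σ : B →ₐ[ℂ] Ω => σ.comp (e : A →ₐ[ℂ] B)) := by
    intro σ σ' h
    ext b
    have := DFunLike.congr_fun h (e.symm b)
    simpa using this
  have hback : ∀ σ : B →ₐ[ℂ] Ω, (σ.comp (e : A →ₐ[ℂ] B)).comp (e.symm : B →ₐ[ℂ] A) = σ := by
    intro σ
    ext b
    simp
  have h1 := h Ω (S.image fun σ => σ.comp (e : A →ₐ[ℂ] B))
    (by rw [Finset.card_image_of_injective _ hinj]; exact hS)
    (fun ρ => c (ρ.comp (e.symm : B →ₐ[ℂ] A))) (by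
      intro f hf
      rw [Finset.sum_image fun a _ b _ hab => hinj hab]
      have h2 := hc (e f) (hx_equiv e hA hx hf)
      rw [← h2]
      refine Finset.sum_congr rfl fun σ _ => ?_
      rw [hback]
      rfl)
  intro σ hσ
  have h2 := h1 (σ.comp (e : A →ₐ[ℂ] B)) (Finset.mem_image_of_mem _ hσ)
  rwa [hback] at h2

section

variable {K : Type} [Field K] [Algebra ℂ K] {n : ℕ} {F : Fin n → IntermediateField ℂ K}
  {m : Fin n → ℕ}

/-- the coordinates are independent -/
theorem ind_prod (hsup : ⨆ i, F i = ⊤)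
    (hK : Algebra.trdeg ℂ K = (∑ i, m i : ℕ)) {x : ∀ i, Fin (m i) → F i}
    (hx : ∀ i, IsTranscendenceBasis ℂ (x i)) :
    AlgebraicIndependent ℂ fun p : (i : Fin n) × Fin (m i) => (x p.1 p.2 : K) := by
  obtain ⟨e⟩ : Nonempty (Fin (∑ i, m i) ≃ (i : Fin n) × Fin (m i)) := ⟨finSigmaFinEquiv.symm⟩
  let w : Fin (∑ i, m i) → K := fun l => (x (e l).1 (e l).2 : K)
  obtain ⟨S, hS⟩ : ∃ S, S = IntermediateField.adjoin ℂ (Set.range w) := ⟨_, rfl⟩
  have hwS : ∀ l, w l ∈ S := fun l => by
    rw [hS]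
    exact IntermediateField.subset_adjoin _ _ ⟨l, rfl⟩
  have h3 : ∀ i, ∀ v ∈ F i, IsAlgebraic S v := by
    intro i v hv
    refine alg_of_basis (hx i) (fun j => ?_) hv
    have h1 := hwS (e.symm ⟨i, j⟩)
    change (x (e (e.symm ⟨i, j⟩)).1 (e (e.symm ⟨i, j⟩)).2 : K) ∈ S at h1
    rw [Equiv.apply_symm_apply] at h1
    exact h1
  have h4 := le_algCl h3 (T := ⊤) hsup.symm
  have h5 : Algebra.IsAlgebraic (Algebra.adjoin ℂ (Set.range w)) K := by
    refine Pool.Agent.W619.PQ.alg_adjoin fun z => ?_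
    have h6 := h4 (IntermediateField.mem_top (x := z))
    rw [mem_restrictScalars, mem_algebraicClosure_iff, hS] at h6
    exact h6
  have h6 : IsTranscendenceBasis ℂ w := by
    refine Algebra.IsAlgebraic.isTranscendenceBasis_of_lift_le_trdeg_of_finite ℂ _ ?_
    rw [hK]
    simp
  have h7 := h6.1.comp (fun p : (i : Fin n) × Fin (m i) => e.symm p) e.symm.injective
  have h8 : (w ∘ fun p : (i : Fin n) × Fin (m i) => e.symm p) =
      fun p => (x p.1 p.2 : K) := by
    funext p
    change (x (e (e.symm p)).1 (e (e.symm p)).2 : K) = _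
    rw [Equiv.apply_symm_apply]
  rwa [h8] at h7

variable {L : Type} [Field L] [Algebra ℂ L]
  [Algebra L K] [IsScalarTower ℂ L K] [FiniteDimensional L K]

/-- **Images of products are of general type.** -/
theorem gt_multi [Algebra.EssFiniteType ℂ K] [∀ i, Algebra.EssFiniteType ℂ (F i)]
    (hsup : ⨆ i, F i = ⊤) (hm : ∀ i, Algebra.trdeg ℂ (F i) = m i)
    (hK : Algebra.trdeg ℂ K = (∑ i, m i : ℕ)) {x : ∀ i, Fin (m i) → F i}
    (hx : ∀ i, IsTranscendenceBasis ℂ (x i)) {g : Fin n → ℕ}
    (hsep : ∀ i, SepX (x i) (fun _ => False) (g i))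
    (hd : ∀ i : Fin n, 2 * finrank (MF F L (Js n i)) (IntermediateField.adjoin
      (MF F L (Js n i)) (F i : Set K)) < g i) :
    KodGe ℂ L (∑ i, m i) (fun _ => False) (∑ i, m i) := by
  have hessL : Algebra.EssFiniteType ℂ L := Pool.Agent.TH466.QG.ess_below (K := K)
  have hL : Algebra.trdeg ℂ L = (∑ i, m i : ℕ) := Pool.Agent.Y184.NT.trdeg_below (K := K) hK
  obtain ⟨N, hN⟩ : ∃ N, N = ∑ i, m i := ⟨_, rfl⟩
  obtain ⟨e⟩ : Nonempty (Fin N ≃ (i : Fin n) × Fin (m i)) := by
    rw [hN]
    exact ⟨finSigmaFinEquiv.symm⟩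
  have hind := ind_prod hsup hK hx
  rw [← hN] at hK hL ⊢
  have hleT : ∀ i, F i ≤ (⊤ : IntermediateField ℂ K) := fun i => le_top
  have hbT := basis_zS x hleT e hx hind hsup.symm
  have hessT : Algebra.EssFiniteType ℂ (⊤ : IntermediateField ℂ K) := ess_iSup hsup.symm
  let z : Fin N → K := fun l => (x (e l).1 (e l).2 : K)
  have hzind : AlgebraicIndependent ℂ z := hind.comp e e.injective
  have hz : IsTranscendenceBasis ℂ z := by
    refine hzind.isTranscendenceBasis_of_lift_trdeg_le_of_finite ?_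
    rw [hK]
    simp
  have hprod : ∀ f : ∀ i, F i, (∀ i, f i ∈ HX (x i) (fun _ => False)) →
      (∏ i, algebraMap (F i) K (f i)) ∈ HX z (fun _ => False) := by
    intro f hf
    obtain ⟨q, hq1, hq2⟩ := prods sec2 n F m hm x hx hind (fun _ _ => False) ⊤ hsup.symm hleT N e
      f hf
    have hq3 : q ∈ HX (zS x hleT e) (fun _ => False) := hx_mono (by
      rintro Q ⟨_, _, _, h, -⟩
      exact h) hq2
    have h1 := hx_equiv (IntermediateField.topEquiv (F := ℂ) (E := K)) (trdeg_basis hbT) hbT hq3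
    have h2 : IntermediateField.topEquiv (F := ℂ) (E := K) q = ∏ i, algebraMap (F i) K (f i) := hq1
    rw [h2] at h1
    exact h1
  obtain ⟨y, G, hy, hG⟩ := Pool.Agent.Y172.exists_crd hL
  choose G' hG' using fun i => Pool.Agent.Y172.exists_lift (L := K) hL (G i)
  have hGE := Pool.Agent.Y172.lift_dual hG hG'
  obtain ⟨h, hdef⟩ : ∃ h, h = (Matrix.of fun i j => G' i (z j) :
    Matrix (Fin N) (Fin N) K).det := ⟨_, rfl⟩
  have hh : h ≠ 0 := by
    intro h0
    rw [hdef] at h0
    obtain ⟨v, hv, hv0⟩ := Matrix.exists_vecMul_eq_zero_iff.2 h0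
    have happ : ∀ w : K, (∑ i, v i • G' i : Derivation ℂ K K) w = ∑ i, v i * G' i w := by
      intro w
      have h1 := map_sum (Derivation.coeFnAddMonoidHom (R := ℂ) (A := K) (M := K))
        (fun i => v i • G' i) Finset.univ
      have h2 := congrFun h1 w
      rw [Finset.sum_apply] at h2
      exact h2
    have h1 : (∑ i, v i • G' i : Derivation ℂ K K) = 0 := by
      apply Pool.Agent.Y888.NT.der_ext' z hz
      intro j
      rw [happ]
      exact congrFun hv0 j
    apply hv
    funext j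
    have h2 := happ (algebraMap L K (y j))
    rw [h1] at h2
    have h3 : ∑ i, v i * G' i (algebraMap L K (y j)) = v j := by
      rw [Finset.sum_eq_single j]
      · rw [hGE, if_pos rfl, mul_one]
      · intro i _ hi
        rw [hGE, if_neg hi, mul_zero]
      · intro hj
        exact absurd (Finset.mem_univ j) hj
    rw [h3] at h2
    exact h2.symm
  let I := {f : ∀ i, F i // ∀ i, f i ∈ HX (x i) (fun _ => False)}
  obtain ⟨T, hT⟩ : ∃ T : I → L, ∀ f, T f =
    Algebra.trace L K (h * ∏ i, algebraMap (F i) K (f.1 i)) := ⟨_, fun _ => rfl⟩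
  have hreg : ∀ f, ∀ P : Place ℂ L, Divisorial N P → RegAt P (trForm y (T f)) := by
    intro f P hP
    have h1 := trForm_reg hL hy hG hG' (trForm z (∏ i, algebraMap (F i) K (f.1 i)))
      (trForm_pluri z _) (fun Q hQ => (hprod f.1 f.2 Q hQ).2 not_false) P hP
    rw [hT, hdef]
    exact h1
  have hmU : h ∈ MF F L Finset.univ := by
    have h1 : (⨆ i, F i) ≤ (MF F L Finset.univ).restrictScalars ℂ := by
      refine iSup_le fun i v hv => ?_
      rw [mem_restrictScalars]
      exact mem_MJ (E := fun i => F i) _ (Finset.mem_univ i) (⟨v, hv⟩ : F i)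
    rw [hsup] at h1
    exact h1 (IntermediateField.mem_top (x := h))
  obtain ⟨τ0⟩ : Nonempty (K →ₐ[L] AlgebraicClosure L) :=
    ⟨IsAlgClosed.lift (R := L) (M := AlgebraicClosure L) (S := K)⟩
  have hT' : IsScalarTower ℂ L (AlgebraicClosure L) := inferInstance
  have hS : ∀ (Ω : Type) [Field Ω] [Algebra ℂ Ω] [IsAlgClosed Ω] (i : Fin n),
      Sep (ev Ω F i) (HX (x i) (fun _ => False)) (g i) := by
    intro Ω _ _ _ i A hA c hc
    exact hsep i Ω A hA c hc
  have hT0 : ∃ f, T f ≠ 0 := by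
    by_contra hT0
    push Not at hT0
    have h0 := Ch.rel_zero (F := F) (H := fun i => HX (x i) (fun _ => False)) (h := h)
      (fun f hf => by
        have := hT0 ⟨f, hf⟩
        rwa [hT] at this) τ0
    have h1 := Rl.chain h0 (hS (AlgebraicClosure L)) (s := n) (fun l _ =>
      lt_of_le_of_lt ((Ch.count_le τ0 _ _).trans (Nat.le_mul_of_pos_left _ two_pos)) (hd l))
    rw [Js_self] at h1
    have h2 := h1 (fun _ => 0) (fun i hi => absurd (Finset.mem_univ i) hi)
    rw [Finset.compl_univ] at h2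
    have h3 : ∀ τ ∈ SJ (fun i => res (K := K) (L := L) (Ω := AlgebraicClosure L) (F i)) τ0
        Finset.univ, τ h * ∏ i ∈ (∅ : Finset (Fin n)), ev (AlgebraicClosure L) F i 0
          (res (K := K) (L := L) (F i) τ) = τ0 h := by
      intro τ hτ
      rw [Finset.prod_empty, mul_one]
      exact (mem_iff τ0 _ τ).1 hτ h hmU
    rw [Finset.sum_congr rfl h3, Finset.sum_const, nsmul_eq_mul] at h2
    have hchar : CharZero (AlgebraicClosure L) :=
      charZero_of_injective_algebraMap (algebraMap ℂ (AlgebraicClosure L)).injective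
    rcases mul_eq_zero.1 h2 with h8 | h8
    · rw [Nat.cast_eq_zero, Finset.card_eq_zero] at h8
      exact absurd (self_SJ (p := fun i => res (K := K) (L := L) (Ω := AlgebraicClosure L) (F i))
        (τ0 := τ0) Finset.univ) (by rw [h8]; exact Finset.notMem_empty _)
    · exact hh (by simpa using h8)
  obtain ⟨f1, hf1⟩ := hT0
  obtain ⟨Ω', iF, iA, iC, i1, i2, lam, hlam, hlamT, hpts⟩ := exists_pts T (f1 := f1) hf1
  have h0 : Rl (P2 i1 i2 F L) (ev Ω' F) (fun i => HX (x i) (fun _ => False)) (C2 i1 i2 h lam)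
      (Sum.inl τ0) ∅ :=
    Ch.rel2_zero i1 i2 (fun f hf => by
      have := hlamT ⟨f, hf⟩
      rw [hT] at this
      exact this) _
  have h1 := Rl.chain h0 (hS Ω') (s := n) (fun l _ =>
    lt_of_le_of_lt (Ch.count2_le i1 i2 τ0 _ _) (hd l))
  rw [Js_self] at h1
  obtain ⟨τ, hτ⟩ := Ch.rel2_univ i1 i2 hlam hh hmU h1
  refine kodGe_of_alg hL hG T ⟨f1, hf1⟩ hreg (trdeg_adj hzind) fun l => ?_
  exact alg_back τ0 (hpts _ _ (hτ (e l).1 (x (e l).1 (e l).2)).symm)

end

end Pool.Agent.L0h18.ST
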