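import Pool.Agent.L0h18.ST.Str

/-!
The structure theorem for the varieties dominated by the product of several varieties and a curve.
-/

set_option autoImplicit false
set_option linter.overlappingInstances false
set_option linter.unusedSectionVars false
set_option linter.unusedVariables false
set_option maxHeartbeats 4000000
set_option synthInstance.maxHeartbeats 400000

open Polynomial FF IntermediateField Module

namespace Pool.Agent.L0h18.ST

open Pool.Agent.N145.SX Pool.Agent.N145.PC Pool.Agent.W619.PQ Pool.Agent.N145.PL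
open Pool.Agent.W603.LV
open Pool.Agent.W602.GT (Divisorial RegAt IsPluri DerReg DerLog LogAt KodGe LogSec Psef)
open Pool.Agent.Y184.NT (trForm trForm_pluri trForm_reg)
open Pool.Agent.R882.LT (SecAt)

open scoped Classical

section

variable {K : Type} [Field K] [Algebra ℂ K] {k : ℕ} {F : Fin (k + 1) → IntermediateField ℂ K}
  {m : Fin k → ℕ} {L : Type} [Field L] [Algebra ℂ L]
  [Algebra L K] [IsScalarTower ℂ L K] [FiniteDimensional L K]

/-- **The structure theorem.** -/
theorem structure_multi [Algebra.EssFiniteType ℂ K]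
    [∀ i, Algebra.EssFiniteType ℂ (F i)] [IsFF ℂ (F (Fin.last k))] (hsup : ⨆ i, F i = ⊤)
    (hm : ∀ i : Fin k, Algebra.trdeg ℂ (F i.castSucc) = m i)
    (hK : Algebra.trdeg ℂ K = (∑ i, m i + 1 : ℕ)) {x : ∀ i : Fin k, Fin (m i) → F i.castSucc}
    (hx : ∀ i, IsTranscendenceBasis ℂ (x i))
    {g : Fin k → ℕ} (hsep : ∀ i, SepX (x i) (fun _ => False) (g i))
    (hd : ∀ i : Fin k, 2 * finrank (MF F L (Js (k + 1) i)) (IntermediateField.adjoin
      (MF F L (Js (k + 1) i)) (F i.castSucc : Set K)) < g i) :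
    KodGe ℂ L (∑ i, m i + 1) (fun _ => False) (∑ i, m i) ∨ ∃ N : IntermediateField ℂ L,
      (∀ z : L, IsAlgebraic N z → z ∈ N) ∧ Algebra.trdeg ℂ N = (∑ i, m i : ℕ) ∧
      KodGe ℂ N (∑ i, m i) (fun _ => False) (∑ i, m i) ∧
        ∃ (M : Type) (_ : Field M) (_ : Algebra N M),
          Algebra.IsAlgebraic N M ∧ Nonempty (L →ₐ[N] RatFunc M) := by
  have hL : Algebra.trdeg ℂ L = (∑ i, m i + 1 : ℕ) := Pool.Agent.Y184.NT.trdeg_below (K := K) hK
  have hessL : Algebra.EssFiniteType ℂ L := Pool.Agent.TH466.QG.ess_below (K := K)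
  have hind := ind_all hsup hK hx
  obtain ⟨E, hE⟩ : ∃ E, E = ⨆ i : Fin k, F i.castSucc := ⟨_, rfl⟩
  have hle : ∀ i : Fin k, F i.castSucc ≤ E := fun i => by
    rw [hE]
    exact le_iSup (fun i : Fin k => F i.castSucc) i
  have hessE : Algebra.EssFiniteType ℂ E := ess_iSup (F := fun i : Fin k => F i.castSucc) hE
  have hsup' : E ⊔ F (Fin.last k) = ⊤ := by
    rw [eq_top_iff, ← hsup]
    refine iSup_le fun i => ?_
    induction i using Fin.lastCases with
    | last => exact le_sup_right
    | cast i => exact (hle i).trans le_sup_left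
  -- rational curves give the structure
  have hstr : ∀ htrE : Algebra.trdeg ℂ E = (∑ i, m i : ℕ),
      (∃ s : AlgebraicClosure K, Transcendental (algebraicClosure E (AlgebraicClosure K)) s ∧
        ∀ z : L, algebraMap K (AlgebraicClosure K) (algebraMap L K z) ∈
          IntermediateField.adjoin (algebraicClosure E (AlgebraicClosure K)) {s}) →
      ∃ N : IntermediateField ℂ L,
      (∀ z : L, IsAlgebraic N z → z ∈ N) ∧ Algebra.trdeg ℂ N = (∑ i, m i : ℕ) ∧
      KodGe ℂ N (∑ i, m i) (fun _ => False) (∑ i, m i) ∧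
        ∃ (M : Type) (_ : Field M) (_ : Algebra N M),
          Algebra.IsAlgebraic N M ∧ Nonempty (L →ₐ[N] RatFunc M) := by
    rintro htrE ⟨s, hs, hsL⟩
    obtain ⟨-, -, hcl⟩ := closed K _ E (F (Fin.last k)) hsup' htrE hK
    have hfirst : ∀ z ∈ E, IsAlgebraic (E.comap (IsScalarTower.toAlgHom ℂ L K)) z := by
      intro z hz
      refine alg_of_const E hcl fun τ => ?_
      have h1 : ∀ i : Fin k, ∀ z ∈ F i.castSucc, τ z ∈ algebraicClosure E (AlgebraicClosure K) :=
        fun i => const_all hm hx hsep hd E htrE hs hsL τ k i i.2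
      let T : IntermediateField ℂ K :=
        { carrier := {y | τ y ∈ algebraicClosure E (AlgebraicClosure K)}
          mul_mem' := fun {a b} ha hb => by
            change τ (a * b) ∈ algebraicClosure E (AlgebraicClosure K)
            rw [map_mul]
            exact mul_mem ha hb
          add_mem' := fun {a b} ha hb => by
            change τ (a + b) ∈ algebraicClosure E (AlgebraicClosure K)
            rw [map_add]
            exact add_mem ha hb
          algebraMap_mem' := fun y => by
            change τ (algebraMap ℂ K y) ∈ algebraicClosure E (AlgebraicClosure K)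
            have h2 : τ (algebraMap ℂ K y) = algebraMap ℂ (AlgebraicClosure K) y := by
              rw [IsScalarTower.algebraMap_apply ℂ L K, AlgHom.commutes,
                IsScalarTower.algebraMap_apply L K (AlgebraicClosure K),
                ← IsScalarTower.algebraMap_apply ℂ L K,
                ← IsScalarTower.algebraMap_apply ℂ K (AlgebraicClosure K)]
            rw [h2]
            have h3 : algebraMap ℂ (AlgebraicClosure K) y =
                algebraMap E (AlgebraicClosure K) (algebraMap ℂ E y) := by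
              rw [IsScalarTower.algebraMap_apply ℂ K (AlgebraicClosure K)]
              rfl
            rw [h3]
            exact (algebraicClosure E (AlgebraicClosure K)).algebraMap_mem _
          inv_mem' := fun a ha => by
            change τ a⁻¹ ∈ algebraicClosure E (AlgebraicClosure K)
            rw [map_inv₀]
            exact inv_mem ha }
      have h2 : E ≤ T := by
        rw [hE]
        exact iSup_le fun i v hv => h1 i v hv
      exact h2 hz
    obtain ⟨h2, h3⟩ := base_general hm hx hsep hd E hE htrE hcl hfirst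
    exact ⟨_, fun z hz => closed_comap _ hcl hz, h2, h3, to_ratfunc _ hs hsL hfirst⟩
  obtain ⟨N, hN⟩ : ∃ N, N = ∑ i, m i := ⟨_, rfl⟩
  obtain ⟨e⟩ : Nonempty (Fin N ≃ (i : Fin k) × Fin (m i)) := by
    rw [hN]
    exact ⟨finSigmaFinEquiv.symm⟩
  rw [← hN] at hK hL hstr ⊢
  have hz := basis_zS x hle e hx hind hE
  have htrE := trdeg_basis hz
  obtain ⟨t, ht⟩ := IsFF.exists_transcendental (k := ℂ) (K := F (Fin.last k))
  obtain ⟨D0, hD0⟩ := exists_D ht
  obtain ⟨hna, -, hcl⟩ := closed K N E (F (Fin.last k)) hsup' htrE hK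
  obtain ⟨y, G, h, hy, hG, hh, hreg, hval⟩ := exists_traceX (L := L) (BL := fun _ => False) sec
    htrE hK hz (fun _ => False) ht (basis_zz hK hz (hna t ht)) hD0
    (∅ : Set (Place ℂ (F (Fin.last k)))) fun P Q e h1 h2 => by
      rcases h2 with ⟨_, _, h3, -⟩ | ⟨_, h3, -⟩
      · exact h3
      · exact h3
  have hge := geo K N E (F (Fin.last k)) hsup' htrE hK _ hz t ht D0 hD0 L h hval
  obtain ⟨τ0⟩ : Nonempty (K →ₐ[L] AlgebraicClosure L) :=
    ⟨IsAlgClosed.lift (R := L) (M := AlgebraicClosure L) (S := K)⟩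
  have hT' : IsScalarTower ℂ L (AlgebraicClosure L) := inferInstance
  obtain ⟨H, hH⟩ : ∃ H, H = HS x (fun _ _ => False)
    (HL D0 (∅ : Set (Place ℂ (F (Fin.last k)))) : Set (F (Fin.last k))) := ⟨_, rfl⟩
  have hHl : H (Fin.last k) =
      (HL D0 (∅ : Set (Place ℂ (F (Fin.last k)))) : Set (F (Fin.last k))) := by
    rw [hH]
    exact HS_last x _ _
  have hHc : ∀ i : Fin k, H i.castSucc = HX (x i) (fun _ => False) := fun i => by
    rw [hH]
    exact HS_cast x (fun _ _ => False) _ i
  let I := {f : ∀ i, F i // ∀ i, f i ∈ H i}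
  obtain ⟨T, hT⟩ : ∃ T : I → L, ∀ f, T f =
    Algebra.trace L K (h * ∏ i, algebraMap (F i) K (f.1 i)) := ⟨_, fun _ => rfl⟩
  have hTreg : ∀ f, ∀ P : Place ℂ L, Divisorial (N + 1) P → RegAt P (trForm y (T f)) := by
    intro f P hP
    obtain ⟨q, hq1, hq2⟩ := prods sec2 k (fun i => F i.castSucc) m hm x hx hind
      (fun _ _ => False) E hE hle N e
      (fun i => f.1 i.castSucc) (fun i => by
        have := f.2 i.castSucc
        rwa [hHc] at this)
    have hq3 : q ∈ HX (zS x hle e) (fun _ => False) := hx_mono (by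
      rintro Q ⟨_, _, _, h, -⟩
      exact h) hq2
    have h1 := hreg q hq3 (f.1 (Fin.last k)) (by
      have := f.2 (Fin.last k)
      rwa [hHl] at this) P hP
    have h2 : algebraMap E K q * algebraMap (F (Fin.last k)) K (f.1 (Fin.last k)) =
        ∏ i, algebraMap (F i) K (f.1 i) := by
      rw [Fin.prod_univ_castSucc]
      congr 1
    rw [h2] at h1
    rw [hT]
    exact h1.2 not_false
  obtain ⟨gg, hgg⟩ : ∃ gg : Fin (k + 1) → ℕ, gg = Fin.lastCases (motive := fun _ => ℕ) 0 g :=
    ⟨_, rfl⟩
  have hggl : gg (Fin.last k) = 0 := by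
    rw [hgg]
    exact Fin.lastCases_last
  have hggc : ∀ i : Fin k, gg i.castSucc = g i := fun i => by
    rw [hgg]
    exact Fin.lastCases_castSucc i
  have hS : ∀ (Ω : Type) [Field Ω] [Algebra ℂ Ω] [IsAlgClosed Ω] (i : Fin (k + 1)),
      Sep (ev Ω F i) (H i) (gg i) := by
    intro Ω _ _ _ i
    induction i using Fin.lastCases with
    | last =>
      intro A hA
      rw [hggl] at hA
      exact absurd hA (Nat.not_lt_zero _)
    | cast i =>
      intro A hA c hc
      rw [hggc] at hA
      rw [hHc] at hc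
      exact hsep i Ω A hA c hc
  have htr1 : (∀ f : ∀ i, F i, f (Fin.last k) ∈ H (Fin.last k) →
      Algebra.trace (MF F L (Finset.univ.erase (Fin.last k))) K
        (h * ∏ i, algebraMap (F i) K (f i)) = 0) →
      ∀ φ ∈ HL D0 (∅ : Set (Place ℂ (F (Fin.last k)))),
        Algebra.trace (IntermediateField.adjoin L (E : Set K)) K (h * (φ : K)) = 0 := by
    intro h0 φ hφ
    have h1 := h0 (Fin.lastCases (motive := fun i => F i) φ (fun _ => 1)) (by
      rw [Fin.lastCases_last, hHl]
      exact hφ)
    rw [Fin.prod_univ_castSucc, Fin.lastCases_last] at h1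
    simp only [Fin.lastCases_castSucc, map_one, Finset.prod_const_one, one_mul] at h1
    rw [MF_erase hE] at h1
    exact h1
  by_cases hT0 : ∃ f, T f ≠ 0
  swap
  · right
    push Not at hT0
    have h0 := Ch.rel_zero (F := F) (H := H) (h := h) (fun f hf => by
      have := hT0 ⟨f, hf⟩
      rwa [hT] at this) τ0
    have h1 := Rl.chain h0 (hS (AlgebraicClosure L)) (s := k) (fun l hl => by
      obtain ⟨i, rfl⟩ : ∃ i : Fin k, i.castSucc = l := ⟨⟨l.val, hl⟩, rfl⟩
      rw [hggc]
      exact lt_of_le_of_lt ((Ch.count_le τ0 _ _).trans (Nat.le_mul_of_pos_left _ two_pos))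
        (hd i))
    rw [erase_last] at h1
    exact hstr htrE (hge (htr1 fun f hf => Ch.rel_erase h1 f hf))
  · obtain ⟨f1, hf1⟩ := hT0
    obtain ⟨Ω', iF, iA, iC, i1, i2, lam, hlam, hlamT, hpts⟩ := exists_pts T (f1 := f1) hf1
    have h0 : Rl (P2 i1 i2 F L) (ev Ω' F) H (C2 i1 i2 h lam) (Sum.inl τ0) ∅ :=
      Ch.rel2_zero i1 i2 (fun f hf => by
        have := hlamT ⟨f, hf⟩
        rw [hT] at this
        exact this) _
    have h1 := Rl.chain h0 (hS Ω') (s := k) (fun l hl => by
      obtain ⟨i, rfl⟩ : ∃ i : Fin k, i.castSucc = l := ⟨⟨l.val, hl⟩, rfl⟩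
      rw [hggc]
      exact lt_of_le_of_lt (Ch.count2_le i1 i2 τ0 _ _) (hd i))
    rw [erase_last] at h1
    rcases Ch.rel2_erase i1 i2 hlam h1 with ⟨τ, hτ⟩ | h3
    · left
      refine kodGe_of_alg hL hG T ⟨f1, hf1⟩ hTreg (trdeg_adj (hind.comp e e.injective))
        fun l => ?_
      exact alg_back τ0 (hpts _ _ (hτ (e l).1.castSucc (Fin.castSucc_ne_last _)
        (x (e l).1 (e l).2)).symm)
    · exact Or.inr (hstr htrE (hge (htr1 h3)))

end

end Pool.Agent.L0h18.ST
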