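import Pool.Agent.L0h18.ST.GTM

/-!
The structure of the varieties dominated by the product of several varieties and a curve.
-/

set_option autoImplicit false
set_option linter.overlappingInstances false
set_option linter.unusedSectionVars false
set_option linter.unusedVariables false
set_option maxHeartbeats 4000000
set_option synthInstance.maxHeartbeats 400000

open Polynomial FF IntermediateField Module

namespace Pool.Agent.L0h18.ST

open Pool.Agent.N145.SX Pool.Agent.N145.PC Pool.Agent.W619.PQ Pool.Agent.N145.PL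
open Pool.Agent.W602.GT (Divisorial RegAt IsPluri DerReg DerLog LogAt KodGe LogSec Psef)
open Pool.Agent.Y184.NT (trForm trForm_pluri trForm_reg)
open Pool.Agent.R882.LT (SecAt)

open scoped Classical

section

variable {K : Type} [Field K] [Algebra ℂ K] [Algebra.EssFiniteType ℂ K]
  {L : Type} [Field L] [Algebra ℂ L] [Algebra L K] [IsScalarTower ℂ L K]
  [FiniteDimensional L K]

/-- the functions of one factor are constant on rational curves -/
theorem const_step {N : ℕ} (E : IntermediateField ℂ K) (hE : Algebra.trdeg ℂ E = N)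
    {s : AlgebraicClosure K}
    (hs : Transcendental (algebraicClosure E (AlgebraicClosure K)) s)
    (A0 : IntermediateField L K) (τ : K →ₐ[L] AlgebraicClosure K)
    (hA0 : ∀ a ∈ A0, τ a ∈ IntermediateField.adjoin
      (algebraicClosure E (AlgebraicClosure K)) {s})
    (F0 : IntermediateField ℂ K) [Algebra.EssFiniteType ℂ F0] {m : ℕ}
    (hF0 : Algebra.trdeg ℂ F0 = m) {x : Fin m → F0} (hx : IsTranscendenceBasis ℂ x) {g : ℕ}
    (hsep : SepX x (fun _ => False) g)
    (hdeg : 2 * finrank A0 (IntermediateField.adjoin A0 (F0 : Set K)) < g) :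
    ∀ z ∈ F0, τ z ∈ algebraicClosure E (AlgebraicClosure K) := by
  intro z hz
  let Λ := algebraicClosure E (AlgebraicClosure K)
  have hΛ : IsAlgClosed Λ := (algebraicClosure.isAlgClosure E (AlgebraicClosure K)).isAlgClosed
  have hTΛ : IsScalarTower ℂ Λ (AlgebraicClosure K) := IsScalarTower.of_algebraMap_eq fun z => by
    rw [IsScalarTower.algebraMap_apply ℂ K (AlgebraicClosure K)]
    rfl
  have hTE : IsScalarTower ℂ E Λ := IsScalarTower.of_algebraMap_eq fun z => by
    apply Subtype.ext
    rfl
  have hΛtr : Algebra.trdeg ℂ Λ = N := by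
    have h1 := trdeg_add_eq ℂ E (A := Λ)
    have h2 : Algebra.trdeg E Λ = 0 := by
      rw [trdeg_eq_zero_iff]
      infer_instance
    rw [h2, add_zero, hE] at h1
    exact h1.symm
  obtain ⟨A, hA⟩ : ∃ A, A = IntermediateField.adjoin A0 (F0 : Set K) := ⟨_, rfl⟩
  rw [← hA] at hdeg
  obtain ⟨hf1, hf2⟩ := adj_le (A0 := A0) (A := A) (R := Λ⟮s⟯)
    ((τ : K →+* AlgebraicClosure K).comp (algebraMap A K))
    (fun a => ⟨⟨τ (a : K), hA0 _ a.2⟩, rfl⟩)
  let φ : F0 →ₐ[ℂ] AlgebraicClosure K := (τ.restrictScalars ℂ).comp F0.val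
  have hle : IntermediateField.adjoin Λ⟮s⟯ (Set.range φ) ≤ IntermediateField.adjoin Λ⟮s⟯
      (Set.range ((τ : K →+* AlgebraicClosure K).comp (algebraMap A K))) := by
    apply IntermediateField.adjoin.mono
    rintro _ ⟨w, rfl⟩
    exact ⟨⟨(w : K), by rw [hA]; exact IntermediateField.subset_adjoin _ _ w.2⟩, rfl⟩
  have hfin : FiniteDimensional Λ⟮s⟯ (IntermediateField.adjoin Λ⟮s⟯ (Set.range φ)) :=
    FiniteDimensional.of_injective (IntermediateField.inclusion hle).toLinearMap
      (IntermediateField.inclusion hle).injective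
  have hfr : finrank Λ⟮s⟯ (IntermediateField.adjoin Λ⟮s⟯ (Set.range φ)) ≤
      finrank Λ⟮s⟯ (IntermediateField.adjoin Λ⟮s⟯
        (Set.range ((τ : K →+* AlgebraicClosure K).comp (algebraMap A K)))) :=
    IntermediateField.finrank_le_of_le_right hle
  have h1 := cst F0 Λ (AlgebraicClosure K) m N hF0 hΛtr x hx g hsep s hs φ hfin (by omega) ⟨z, hz⟩
  have h2 : IsAlgebraic E (τ z) := h1.restrictScalars E
  exact mem_algebraicClosure_iff.2 h2

variable {k : ℕ} {F : Fin (k + 1) → IntermediateField ℂ K} {m : Fin k → ℕ}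

/-- the functions of the factors are constant on rational curves -/
theorem const_all [∀ i, Algebra.EssFiniteType ℂ (F i)]
    (hm : ∀ i : Fin k, Algebra.trdeg ℂ (F i.castSucc) = m i)
    {x : ∀ i : Fin k, Fin (m i) → F i.castSucc} (hx : ∀ i, IsTranscendenceBasis ℂ (x i))
    {g : Fin k → ℕ} (hsep : ∀ i, SepX (x i) (fun _ => False) (g i))
    (hd : ∀ i : Fin k, 2 * finrank (MF F L (Js (k + 1) i)) (IntermediateField.adjoin
      (MF F L (Js (k + 1) i)) (F i.castSucc : Set K)) < g i)
    {N : ℕ} (E : IntermediateField ℂ K) (hE : Algebra.trdeg ℂ E = N)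
    {s : AlgebraicClosure K}
    (hs : Transcendental (algebraicClosure E (AlgebraicClosure K)) s)
    (hL : ∀ z : L, algebraMap K (AlgebraicClosure K) (algebraMap L K z) ∈
      IntermediateField.adjoin (algebraicClosure E (AlgebraicClosure K)) {s})
    (τ : K →ₐ[L] AlgebraicClosure K) :
    ∀ (l : ℕ) (i : Fin k), i.val < l → ∀ z ∈ F i.castSucc,
      τ z ∈ algebraicClosure E (AlgebraicClosure K) := by
  intro l
  induction l with
  | zero =>
    intro i hi
    exact absurd hi (Nat.not_lt_zero _)
  | succ l ih =>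
    intro i hi
    refine const_step E hE hs (MF F L (Js (k + 1) i)) τ ?_ (F i.castSucc) (hm i) (hx i) (hsep i)
      (hd i)
    let Λ := algebraicClosure E (AlgebraicClosure K)
    let T : IntermediateField L K :=
      { carrier := {y | τ y ∈ IntermediateField.adjoin Λ {s}}
        mul_mem' := fun {a b} ha hb => by
          change τ (a * b) ∈ IntermediateField.adjoin Λ {s}
          rw [map_mul]
          exact mul_mem ha hb
        add_mem' := fun {a b} ha hb => by
          change τ (a + b) ∈ IntermediateField.adjoin Λ {s}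
          rw [map_add]
          exact add_mem ha hb
        algebraMap_mem' := fun y => by
          change τ (algebraMap L K y) ∈ IntermediateField.adjoin Λ {s}
          rw [AlgHom.commutes, IsScalarTower.algebraMap_apply L K (AlgebraicClosure K)]
          exact hL y
        inv_mem' := fun a ha => by
          change τ a⁻¹ ∈ IntermediateField.adjoin Λ {s}
          rw [map_inv₀]
          exact inv_mem ha }
    have h1 : MF F L (Js (k + 1) i) ≤ T := by
      unfold MF MJ
      rw [IntermediateField.adjoin_le_iff]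
      intro y hy
      simp only [Set.mem_iUnion] at hy
      obtain ⟨j, hj, w, rfl⟩ := hy
      rw [mem_Js] at hj
      have hjk : j.val < k := lt_trans hj i.2
      have hj' : j = (⟨j.val, hjk⟩ : Fin k).castSucc := rfl
      have h2 := ih ⟨j.val, hjk⟩ (lt_of_lt_of_le hj (Nat.le_of_lt_succ hi)) (w : K) w.2
      exact (IntermediateField.adjoin Λ {s}).algebraMap_mem (⟨_, h2⟩ : Λ)
    intro a ha
    exact h1 ha

/-- **The base is of general type.** -/
theorem base_general [∀ i, Algebra.EssFiniteType ℂ (F i)]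
    (hm : ∀ i : Fin k, Algebra.trdeg ℂ (F i.castSucc) = m i)
    {x : ∀ i : Fin k, Fin (m i) → F i.castSucc} (hx : ∀ i, IsTranscendenceBasis ℂ (x i))
    {g : Fin k → ℕ} (hsep : ∀ i, SepX (x i) (fun _ => False) (g i))
    (hd : ∀ i : Fin k, 2 * finrank (MF F L (Js (k + 1) i)) (IntermediateField.adjoin
      (MF F L (Js (k + 1) i)) (F i.castSucc : Set K)) < g i)
    (B : IntermediateField ℂ K) (hBsup : B = ⨆ i : Fin k, F i.castSucc)
    (hBtr : Algebra.trdeg ℂ B = (∑ i, m i : ℕ))
    (hcl : ∀ z : K, IsAlgebraic B z → z ∈ B)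
    (hfirst : ∀ z ∈ B, IsAlgebraic (B.comap (IsScalarTower.toAlgHom ℂ L K)) z) :
    Algebra.trdeg ℂ (B.comap (IsScalarTower.toAlgHom ℂ L K)) = (∑ i, m i : ℕ) ∧
    KodGe ℂ (B.comap (IsScalarTower.toAlgHom ℂ L K)) (∑ i, m i) (fun _ => False) (∑ i, m i) := by
  have hBle : ∀ i : Fin k, F i.castSucc ≤ B := fun i => by
    rw [hBsup]
    exact le_iSup (fun i : Fin k => F i.castSucc) i
  have hBess : Algebra.EssFiniteType ℂ B := ess_iSup (F := fun i : Fin k => F i.castSucc) hBsup
  obtain ⟨N, hN⟩ : ∃ N, N = B.comap (IsScalarTower.toAlgHom ℂ L K) := ⟨_, rfl⟩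
  have hclN : ∀ z : L, IsAlgebraic N z → z ∈ N := by
    intro z hz
    subst hN
    exact closed_comap B hcl hz
  have hNB' : ∀ z ∈ N, algebraMap L K z ∈ B := by
    intro z hz
    rw [hN] at hz
    exact hz
  have hNB : ∀ z : N, algebraMap L K z ∈ B := fun z => hNB' z z.2
  rw [← hN] at hfirst ⊢
  -- the extension `B` of `N`
  let iB : Algebra N B := (RingHom.mk ⟨⟨fun z => ⟨algebraMap L K z, hNB z⟩,
    Subtype.ext (map_one (algebraMap L K))⟩, fun a b => Subtype.ext (map_mul (algebraMap L K) _ _)⟩
    (Subtype.ext (map_zero (algebraMap L K))) (fun a b => Subtype.ext (map_add (algebraMap L K) _ _))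
    : N →+* B).toAlgebra
  have hBK : IsScalarTower N B K := IsScalarTower.of_algebraMap_eq fun _ => rfl
  have hCB : IsScalarTower ℂ N B := IsScalarTower.of_algebraMap_eq fun c =>
    Subtype.ext (IsScalarTower.algebraMap_apply ℂ L K c)
  have hBalg : Algebra.IsAlgebraic N B := by
    constructor
    intro b
    exact (isAlgebraic_algebraMap_iff (R := N) (algebraMap B K).injective).1 (hfirst _ b.2)
  have hBess' : Algebra.EssFiniteType N B := Algebra.EssFiniteType.of_comp ℂ N B
  have hBfin : FiniteDimensional N B := Algebra.finite_of_essFiniteType_of_isAlgebraic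
  have hNtr : Algebra.trdeg ℂ N = (∑ i, m i : ℕ) :=
    Pool.Agent.Y184.NT.trdeg_below (K := B) hBtr
  refine ⟨hNtr, ?_⟩
  -- the factors in `B`
  obtain ⟨F', hF'⟩ : ∃ F' : Fin k → IntermediateField ℂ B,
    F' = fun l => (F l.castSucc).comap B.val := ⟨_, rfl⟩
  have hmemF' : ∀ l (z : B), z ∈ F' l ↔ (z : K) ∈ F l.castSucc := by
    intro l z
    rw [hF']
    rfl
  let e : ∀ l, F l.castSucc ≃ₐ[ℂ] F' l := fun l =>
    { toFun := fun w => ⟨⟨w, hBle l w.2⟩, (hmemF' l _).2 w.2⟩
      invFun := fun z => ⟨(z : B), (hmemF' l _).1 z.2⟩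
      left_inv := fun _ => rfl
      right_inv := fun _ => rfl
      map_mul' := fun _ _ => rfl
      map_add' := fun _ _ => rfl
      commutes' := fun _ => rfl }
  have hFess : ∀ l, Algebra.EssFiniteType ℂ (F' l) := fun l =>
    Algebra.EssFiniteType.of_surjective (e l).toAlgHom (e l).surjective
  have hFtr : ∀ l, Algebra.trdeg ℂ (F' l) = m l := fun l => by
    rw [← (e l).trdeg_eq]
    exact hm l
  have hsup' : ⨆ l, F' l = ⊤ := by
    apply IntermediateField.map_injective B.val
    rw [IntermediateField.map_iSup, ← AlgHom.fieldRange_eq_map, IntermediateField.fieldRange_val]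
    refine Eq.trans ?_ hBsup.symm
    congr 1
    funext l
    ext z
    constructor
    · rintro ⟨w, hw, rfl⟩
      exact (hmemF' l w).1 hw
    · intro hz
      exact ⟨⟨z, hBle l hz⟩, (hmemF' l _).2 hz, rfl⟩
  refine gt_multi (F := F') (L := N) (m := m) hsup' hFtr hBtr
    (x := fun l j => e l (x l j)) (fun l => (e l).isTranscendenceBasis (hx l))
    (fun l => sepX_equiv (e l) (hm l) (hx l) (hsep l)) (fun l => ?_)
  -- the degrees
  have hdl := hd l
  obtain ⟨A0, hA0⟩ : ∃ A0, A0 = MF F' N (Js k l) := ⟨_, rfl⟩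
  obtain ⟨LA0, hLA0⟩ : ∃ LA0, LA0 = MF F L (Js (k + 1) (l.castSucc).val) := ⟨_, rfl⟩
  rw [← hA0]
  change 2 * finrank (MF F L (Js (k + 1) (l.castSucc).val)) (IntermediateField.adjoin
      (MF F L (Js (k + 1) (l.castSucc).val)) (F l.castSucc : Set K)) < g l at hdl
  rw [← hLA0] at hdl
  obtain ⟨A, hA⟩ : ∃ A : IntermediateField A0 B, A = IntermediateField.adjoin A0 (F' l : Set B) :=
    ⟨_, rfl⟩
  obtain ⟨LA, hLA⟩ : ∃ LA : IntermediateField LA0 K,
    LA = IntermediateField.adjoin LA0 (F l.castSucc : Set K) := ⟨_, rfl⟩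
  rw [← hA]
  rw [← hLA] at hdl
  -- images
  have h0 : ∀ a ∈ A0, ((a : B) : K) ∈ LA0 := by
    let T : IntermediateField N B :=
      { carrier := {y | ((y : B) : K) ∈ LA0}
        mul_mem' := fun {a b} ha hb => mul_mem (S := IntermediateField L K) (s := LA0) ha hb
        add_mem' := fun {a b} ha hb => add_mem (S := IntermediateField L K) (s := LA0) ha hb
        algebraMap_mem' := fun y => LA0.algebraMap_mem (y : L)
        inv_mem' := fun a ha => inv_mem (S := IntermediateField L K) (s := LA0) ha }
    have h1 : A0 ≤ T := by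
      rw [hA0]
      unfold MF MJ
      rw [IntermediateField.adjoin_le_iff]
      intro y hy
      simp only [Set.mem_iUnion] at hy
      obtain ⟨i, hi, w, rfl⟩ := hy
      rw [mem_Js] at hi
      change (((w : F' i) : B) : K) ∈ LA0
      rw [hLA0]
      exact mem_MJ (E := fun i => F i) (i := i.castSucc) _ (mem_Js.2 hi)
        ⟨_, (hmemF' i _).1 w.2⟩
    exact h1
  have h1 : ∀ a : A, (((a : A) : B) : K) ∈ LA.restrictScalars L := by
    let T : IntermediateField A0 B :=
      { carrier := {y | ((y : B) : K) ∈ LA}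
        mul_mem' := fun {a b} ha hb => mul_mem (S := IntermediateField LA0 K) (s := LA) ha hb
        add_mem' := fun {a b} ha hb => add_mem (S := IntermediateField LA0 K) (s := LA) ha hb
        algebraMap_mem' := fun y => LA.algebraMap_mem ⟨_, h0 _ y.2⟩
        inv_mem' := fun a ha => inv_mem (S := IntermediateField LA0 K) (s := LA) ha }
    have h2 : A ≤ T := by
      rw [hA, IntermediateField.adjoin_le_iff]
      intro y hy
      change ((y : B) : K) ∈ LA
      rw [hLA]
      exact IntermediateField.subset_adjoin _ _ ((hmemF' l y).1 hy)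
    intro a
    exact h2 a.2
  -- `[A : N] ≤ [LA : L]`
  have hclN' : ∀ x : L, IsIntegral N x → ∃ y : N, algebraMap N L y = x := fun x hx =>
    ⟨⟨x, hclN x hx.isAlgebraic⟩, rfl⟩
  have hchN : CharZero N := charZero_of_injective_algebraMap (algebraMap ℂ N).injective
  have e1 : finrank N A ≤ finrank L (LA.restrictScalars L) := by
    have hT1 : IsScalarTower N A K := IsScalarTower.of_algebraMap_eq fun _ => rfl
    have hf1 : FiniteDimensional N A0 := inferInstance
    have hf2 : FiniteDimensional A0 A := inferInstance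
    have hf3 : FiniteDimensional N A := FiniteDimensional.trans N A0 A
    exact finrank_le_of_disj (N := N) (L := L) (A := A) (K := K) hclN' (LA.restrictScalars L) h1
  -- `[LA0 : L] ≤ [A0 : N]`
  have e2 : finrank L LA0 ≤ finrank N A0 := by
    obtain ⟨hf1, hf2⟩ := adj_le (A0 := N) (A := A0) (R := L)
      ((algebraMap B K).comp (algebraMap A0 B)) (fun a => ⟨(a : L), rfl⟩)
    have hle : LA0 ≤ IntermediateField.adjoin L
        (Set.range ((algebraMap B K).comp (algebraMap A0 B))) := by
      rw [hLA0]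
      unfold MF MJ
      rw [IntermediateField.adjoin_le_iff]
      intro y hy
      simp only [Set.mem_iUnion] at hy
      obtain ⟨i, hi, w, rfl⟩ := hy
      rw [mem_Js] at hi
      have hin : i.val < k := lt_of_lt_of_le hi (by
        change l.val ≤ k
        omega)
      have hi' : i = (⟨i.val, hin⟩ : Fin k).castSucc := rfl
      have hwB : (w : K) ∈ B := hBle ⟨i.val, hin⟩ w.2
      have hw' : (⟨(w : K), hwB⟩ : B) ∈ A0 := by
        rw [hA0]
        exact mem_MJ (E := fun i => F' i) (i := (⟨i.val, hin⟩ : Fin k)) _ (mem_Js.2 hi)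
          ⟨⟨(w : K), hwB⟩, (hmemF' _ _).2 w.2⟩
      exact IntermediateField.subset_adjoin _ _ ⟨⟨_, hw'⟩, rfl⟩
    refine (IntermediateField.finrank_le_of_le_right hle).trans hf2
  have e3 : finrank N A0 * finrank A0 A = finrank N A := finrank_mul_finrank N A0 A
  have e4 : finrank L LA0 * finrank LA0 LA = finrank L (LA.restrictScalars L) :=
    finrank_mul_finrank L LA0 LA
  have e5 : 0 < finrank N A0 := finrank_pos
  have e6 : finrank A0 A ≤ finrank LA0 LA := by
    have h2 : finrank N A0 * finrank A0 A ≤ finrank N A0 * finrank LA0 LA := by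
      calc finrank N A0 * finrank A0 A = finrank N A := e3
        _ ≤ finrank L (LA.restrictScalars L) := e1
        _ = finrank L LA0 * finrank LA0 LA := e4.symm
        _ ≤ finrank N A0 * finrank LA0 LA := Nat.mul_le_mul_right _ e2
    exact Nat.le_of_mul_le_mul_left h2 e5
  omega

end

end Pool.Agent.L0h18.ST
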